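import Mathlib

namespace Pool.Agent.Results.MP_81d777_co.Fano

/-- one round of the standard colour change rule -/
def step {V : Type} (G : SimpleGraph V) (B : Set V) : Set V :=
  B ∪ {w | ∃ u ∈ B, G.Adj u w ∧ w ∉ B ∧ ∀ x, G.Adj u x → x ∉ B → x = w}

def Forcing {V : Type} (G : SimpleGraph V) (B : Set V) : Prop :=
  ∃ p, (step G)^[p] B = Set.univ

/-- propagation time -/
noncomputable def pt {V : Type} (G : SimpleGraph V) (B : Set V) : ℕ :=
  sInf {p | (step G)^[p] B = Set.univ}

/-- upper propagation time -/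
noncomputable def upperPt {V : Type} (G : SimpleGraph V) : ℕ :=
  sSup {p | ∃ B, Minimal (Forcing G) B ∧ pt G B = p}

/-- complete, or a join of `t ≥ 2` factors, each edgeless or a union of two cliques -/
def FastJoin {V : Type} (G : SimpleGraph V) : Prop :=
  G = ⊤ ∨ ∃ (t : ℕ) (c : V → Fin t) (s : V → Bool), 2 ≤ t ∧ (∀ u v, c u ≠ c v → G.Adj u v) ∧
    ∀ i, (2 ≤ {v | c v = i}.ncard ∧ ∀ u v, c u = i → c v = i → ¬ G.Adj u v) ∨
      ((∀ b, 2 ≤ {v | c v = i ∧ s v = b}.ncard) ∧
        ∀ u v, c u = i → c v = i → (G.Adj u v ↔ u ≠ v ∧ s u = s v))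

def dot (a b : Fin 14) : Bool :=
  let m := (a.val / 2 + 1) &&& (b.val / 2 + 1)
  (m % 2 + m / 2 % 2 + m / 4) % 2 == 1

def H : SimpleGraph (Fin 14) where
  Adj a b := a ≠ b ∧ dot a b = true
  symm := ⟨by decide⟩
  loopless := ⟨fun _ h => h.1 rfl⟩

instance : DecidableRel H.Adj := fun a b => by unfold H; infer_instance

def adjb (a b : Fin 14) : Bool := a != b && dot a b

lemma adj_iff (a b : Fin 14) : H.Adj a b ↔ adjb a b = true := by simp [H, adjb]

def fortb (l : List (Fin 14)) : Bool := (List.finRange 14).all fun u =>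
  l.contains u || l.all fun w => !adjb u w || l.any fun x => x != w && adjb u x

lemma fortb_spec (l : List (Fin 14)) (h : fortb l = true) (u : Fin 14) (hu : u ∉ l) (w : Fin 14)
    (hw : w ∈ l) (h1 : H.Adj u w) : ∃ x ∈ l, x ≠ w ∧ H.Adj u x := by
  simp only [fortb, List.all_eq_true, Bool.or_eq_true, List.contains_iff_mem, List.any_eq_true,
    Bool.and_eq_true, bne_iff_ne, Bool.not_eq_true'] at h
  rcases h u (List.mem_finRange u) with h2 | h2
  · exact absurd h2 hu
  · rcases h2 w hw with h3 | ⟨x, hx, h3, h4⟩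
    · rw [(adj_iff u w).1 h1] at h3; exact absurd h3 (by simp)
    · exact ⟨x, hx, h3, (adj_iff u x).2 h4⟩

lemma L1 : ∀ a b : Fin 14, a < b → ∀ c, b < c → ∀ d, c < d →
    [[a, b], [a, c], [a, d], [b, c], [b, d], [c, d], [a, b, c], [a, b, d], [a, c, d], [b, c, d],
      [a, b, c, d]].any fortb = true := by decide +kernel

lemma L2 : ∀ a b c : Fin 14, ([[a, b], [a, c], [b, c], [a, b, c]].any fortb ||
    (List.finRange 14).any fun u => u != a && u != b && u != c && adjb u a &&
      (!adjb u b || b == a) && (!adjb u c || c == a)) = true := by decide +kernel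

lemma persist (F : List (Fin 14)) (hF : fortb F = true) (p : ℕ) (B : Set (Fin 14))
    (h : ∀ x ∈ F, x ∉ B) : ∀ x ∈ F, x ∉ (step H)^[p] B := by
  induction p with
  | zero => exact h
  | succ p ih =>
    intro x hx
    rw [Function.iterate_succ_apply']
    rintro (h1 | ⟨u, hu, h2, -, h3⟩)
    · exact ih x hx h1
    · obtain ⟨y, hy, h4, h5⟩ := fortb_spec F hF u (fun h6 => ih u h6 hu) x hx h2
      exact h4 (h3 y h5 (ih y hy))

lemma one_round (B : Set (Fin 14)) (hB : Forcing H B) : step H B = Set.univ := by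
  classical
  obtain ⟨p, hp⟩ := hB
  set T : Finset (Fin 14) := Finset.univ.filter (fun x => x ∉ B) with hT
  have hmem : ∀ x, x ∈ T ↔ x ∉ B := fun x => by simp [hT]
  have nofort : ∀ (x : Fin 14) (F : List (Fin 14)), (∀ y ∈ x :: F, y ∉ B) →
      fortb (x :: F) = false := by
    intro x F hs
    by_contra hF
    exact persist _ (by simpa using hF) p B hs x List.mem_cons_self (hp ▸ Set.mem_univ x)
  have hc : T.card < 4 := by
    by_contra h4
    set e := T.orderEmbOfCardLe (not_lt.1 h4)
    have he : ∀ i, e i ∉ B := fun i => (hmem _).1 (T.orderEmbOfCardLe_mem _ i)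
    have := L1 (e 0) (e 1) (e.strictMono (by decide)) (e 2) (e.strictMono (by decide)) (e 3)
      (e.strictMono (by decide))
    simp only [List.any_cons, List.any_nil] at this
    rw [nofort, nofort, nofort, nofort, nofort, nofort, nofort, nofort, nofort, nofort,
      nofort] at this
    · simp at this
    all_goals simp [he]
  refine Set.eq_univ_of_forall (fun w => ?_)
  by_cases hw : w ∈ B
  · exact Or.inl hw
  have hw' := (hmem w).2 hw
  have h2 : (T.erase w).card ≤ 2 := by rw [Finset.card_erase_of_mem hw']; omega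
  obtain ⟨b, c, hb, hc, hall⟩ : ∃ b c, b ∉ B ∧ c ∉ B ∧ ∀ x, x ∉ B → x = w ∨ x = b ∨ x = c := by
    have hx : ∀ x, x ∉ B → x = w ∨ x ∈ T.erase w := fun x hx => by
      by_cases h : x = w
      · exact Or.inl h
      · exact Or.inr (Finset.mem_erase.2 ⟨h, (hmem x).2 hx⟩)
    have hy : ∀ x ∈ T.erase w, x ∉ B := fun x hx => (hmem x).1 (Finset.mem_of_mem_erase hx)
    interval_cases h : (T.erase w).card
    · rw [Finset.card_eq_zero] at h
      exact ⟨w, w, hw, hw, fun x h1 => Or.inl (by simpa [h] using hx x h1)⟩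
    · obtain ⟨b, h⟩ := Finset.card_eq_one.1 h
      refine ⟨b, b, hy b (by simp [h]), hy b (by simp [h]), fun x h1 => ?_⟩
      simpa [h] using hx x h1
    · obtain ⟨b, c, -, h⟩ := Finset.card_eq_two.1 h
      refine ⟨b, c, hy b (by simp [h]), hy c (by simp [h]), fun x h1 => ?_⟩
      simpa [h] using hx x h1
  have := L2 w b c
  simp only [List.any_cons, List.any_nil] at this
  rw [nofort, nofort, nofort, nofort] at this
  · simp only [Bool.or_false, Bool.false_or, List.any_eq_true, Bool.and_eq_true, bne_iff_ne,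
      Bool.or_eq_true, Bool.not_eq_true', beq_iff_eq] at this
    obtain ⟨u, -, ⟨⟨⟨⟨⟨h3, h4⟩, h5⟩, h6⟩, h7⟩, h8⟩⟩ := this
    refine Or.inr ⟨u, ?_, (adj_iff _ _).2 h6, hw, fun x h9 h10 => ?_⟩
    · by_contra h
      rcases hall u h with h | h | h <;> contradiction
    · rw [adj_iff] at h9
      rcases hall x h10 with h | h | h
      · exact h
      · subst h; exact h7.resolve_left (by simp [h9])
      · subst h; exact h8.resolve_left (by simp [h9])
  all_goals simp [hw, hb, hc]

lemma almost : Forcing H {x | x ≠ 0} := by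
  refine ⟨1, Set.eq_univ_of_forall (fun w => ?_)⟩
  by_cases hw : w = 0
  · subst hw
    refine Or.inr ⟨1, by decide, by decide, by simp, fun x _ h => ?_⟩
    simpa using h
  · exact Or.inl hw

lemma pt_eq (B : Set (Fin 14)) (hB : Minimal (Forcing H) B) : pt H B = 1 := by
  have h1 : B ≠ Set.univ := by
    intro h
    have := hB.2 almost (by rw [h]; exact Set.subset_univ _)
    rw [h] at this
    exact this (Set.mem_univ 0) rfl
  have h2 : (1 : ℕ) ∈ {p | (step H)^[p] B = Set.univ} := one_round B hB.1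
  refine le_antisymm (Nat.sInf_le h2) (le_csInf ⟨1, h2⟩ ?_)
  intro p hp
  rcases Nat.eq_zero_or_pos p with h0 | h0
  · subst h0; exact absurd hp h1
  · exact h0

lemma two : ∀ u v : Fin 14, ∃ w, ¬ H.Adj u w ∧ ¬ H.Adj w v := by decide +kernel

theorem result : ∃ (V : Type) (_ : Fintype V) (G : SimpleGraph V),
    G.Connected ∧ upperPt G = 1 ∧ ¬ FastJoin G := by
  refine ⟨Fin 14, inferInstance, H, by decide +kernel, ?_, ?_⟩
  · have : {p | ∃ B, Minimal (Forcing H) B ∧ pt H B = p} = {1} := by
      ext p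
      constructor
      · rintro ⟨B, hB, rfl⟩
        exact pt_eq B hB
      · rintro rfl
        obtain ⟨B, hB⟩ := exists_minimal_of_wellFoundedLT (Forcing H) ⟨_, almost⟩
        exact ⟨B, hB, pt_eq B hB⟩
    rw [upperPt, this, csSup_singleton]
  · rintro (h | ⟨t, c, s, ht, h1, h2⟩)
    · have : H.Adj 0 2 := by rw [h]; decide
      revert this; decide
    · have hc : ∀ u v, c u = c v := by
        intro u v
        obtain ⟨w, h3, h4⟩ := two u v
        have a1 : c u = c w := by by_contra h; exact h3 (h1 _ _ h)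
        have a2 : c w = c v := by by_contra h; exact h4 (h1 _ _ h)
        exact a1.trans a2
      have hne : ∀ i, ∃ v, c v = i := by
        intro i
        rcases h2 i with ⟨h, -⟩ | ⟨h, -⟩
        · exact Set.nonempty_of_ncard_ne_zero (s := {v | c v = i}) (by omega)
        · obtain ⟨v, hv⟩ := Set.nonempty_of_ncard_ne_zero (s := {v | c v = i ∧ s v = true})
            (by have := h true; omega)
          exact ⟨v, hv.1⟩
      obtain ⟨u, hu⟩ := hne ⟨0, by omega⟩
      obtain ⟨v, hv⟩ := hne ⟨1, by omega⟩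
      have := hc u v
      rw [hu, hv] at this
      simp at this

end Pool.Agent.Results.MP_81d777_co.Fano
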